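import Pool.Agent.V1141.SO.LIff

/-!
# The motivic Mumford-Tate conjecture for `M ⊕ U`, `M` with Weil classes, is reduced to `U`

Let `K` be a finitely generated field of characteristic `0`, with absolute Galois group `Γ`, let `k` be
the algebraic closure of `ℚ_ℓ` and let `G` be the group of points with values in `k` of the motivic
Galois group of the category of motives for absolute Hodge cycles over `K` (its identity component is
the Mumford-Tate group, by Deligne; or of André's category); `ι : Γ → G` is the homomorphism given
by the `ℓ`-adic realization and `χ` the character of `G` which belongs to `ℚ(1)` (or its dual), so that
`χ ∘ ι` is the cyclotomic character.

Let `M` be the direct sum of motives with an action of CM fields: the realization of `M` over `k` is the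
direct sum of representations `V j`, `V' j` of `G`, `j ∈ J`, the eigenspaces for the pairs of complex
conjugate embeddings, with perfect pairings `V j × V' j → χ ^ w j` given by the polarization
(`Piece`). For `j` in a subset `T` of `J` let `det V j` be `χ ^ e j` on a subgroup of finite index of `G`
(the Weil classes are motivic Tate classes); the signatures are arbitrary. Let `U` be an ARBITRARY
motive, with realization `Y`, with the action `σ` of `G`. Suppose that for ONE element `γ` of `Γ`, for
example a Frobenius element, in every multiplicative relation between the eigenvalues `α j i` of `γ` on
the `V j`, the eigenvalues of `γ` on `Y` and `χ(γ)`, the exponents of `α j i` do not depend on `i` and are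
zero if `j` is not in `T` (`OnlyConstantRelationsWith`).

**Theorem.** All Tate classes in the tensor powers of (the dual of) the realization of `M ⊕ U`, with all
twists, are motivic (`TateAreMotivic`: the multilinear forms which are multiplied by a power of `χ` by
a subgroup of finite index of `Γ` are multiplied by this power by a subgroup of finite index of `G`) if
and only if

* this holds for `U`, and
* the endomorphisms of every `V j` which commute with a subgroup of finite index of `Γ` commute with a
  subgroup of finite index of `G` (`EndosAreMotivic`; this is Faltings' theorem if `M` belongs to an
  abelian variety, and is trivial if these endomorphisms are scalars).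

As all motives are polarizable and the motivic Galois group is reductive, this property of `U` (if `ℚ(1)`
is a summand of `U`) says that `G_ℓ(U)°`, if it is reductive, is the identity component of the motivic
Galois group, the Mumford-Tate group. So the conjecture for `M ⊕ U` is equivalent to that for `U` and
for endomorphisms; with `U = ℚ(1)` the theorem reduces the conjecture for `M` to the Tate conjecture for
its endomorphisms. Nothing is assumed on the dimensions, the Hodge numbers
and the semisimplicity of `γ` on `Y`. `M` is allowed to have exceptional (Weil) classes which are not
generated by classes of degree two, for example if `M` is the first cohomology group of an abelian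
variety of Weil type with a Frobenius element at which there is no relation besides that given by the
Weil classes and the polarization.

The proof: the Tate classes with values in the space of multilinear forms on `Y` correspond, after
multiplication by determinants, to Tate classes of `V ⊕ V^*` with an additional torus; by the theorem on
the generation in degree two these are combinations of products of bilinear forms, which are motivic
by the hypothesis on endomorphisms (`lift2`).
-/

set_option autoImplicit false

namespace Pool.Agent.Results.MP_de8692_ag.CMFactorsTimes

open Module Pool.Agent.V1141.WT Pool.Agent.V1141.OF Pool.Agent.V1141.SO

/-- **All Tate classes on powers of `M ⊕ U` are motivic if and only if this holds for `U` and for the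
endomorphisms of the `V j`**, for motives `M` with an action of CM fields and Weil classes. -/
theorem result {k : Type} [Field k] [CharZero k] [IsAlgClosed k]
    -- the Galois group and the motivic Galois group
    {Γ G : Type} [Group Γ] [Group G] (ι : Γ →* G) {χ : G →* k}
    -- the realization of the motive `M`
    {J : Type} [Fintype J] (R : J → Piece k χ) (T : Set J) (e : J → ℤ)
    (hT : WeilClassesAreTate R T e)
    -- the realization of the motive `U`
    {Y : Type} [AddCommGroup Y] [Module k Y] [FiniteDimensional k Y] (σ : Representation k G Y)
    -- one element of the Galois group
    (γ : Γ) (α : ∀ j, Fin (dm R j) → k) (hα : AreEigenvalues R (ι γ) α)
    (hrel : OnlyConstantRelationsWith ι R σ γ T α) :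
    TateAreMotivic ι χ (actRY R σ) ↔
      TateAreMotivic ι χ (fun g y => move σ g y) ∧ ∀ j, EndosAreMotivic ι (R j).ρ :=
  liff ι R T e hT σ γ α hα hrel

end Pool.Agent.Results.MP_de8692_ag.CMFactorsTimes
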