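import Pool.Agent.V11219.MinMain

/-!
# Motivated classes and Tate classes: comparison of toric ranks at common places

Let `W` be a Weil cohomology theory with algebraically closed coefficients on a class of smooth
proper varieties, and let `Γ` be a group which acts on the cohomology of the varieties `X_i`, `Y_b` and
`Z` with the formal properties of a Galois action (the example: the `ℓ`-adic cohomology of varieties over
a finitely generated field `k` of characteristic zero and the Galois group of `k`; `χ` is the action on
the Tate twists).

Let `C` be a system of classes: for every variety `A` a space `C(A)` of cohomology classes, containing the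
classes of algebraic cycles and stable under products, pull-backs and push-forwards (`ClassSystem`). The
examples: the linear combinations of Hodge classes (by the comparison isomorphism), of absolute Hodge
classes, of motivated classes, of algebraic classes. A Tate class of `A` is a class in `H^(2j)(A)` which is
multiplied by `χ(g)^j` by all `g` in a subgroup of finite index of `Γ`; `TateIn χ C A` is the statement
that all Tate classes of `A` belong to `C(A)`. For motivated
classes, or absolute Hodge classes, and all powers of `A` this is the equality of the `ℓ`-adic monodromy
group of the motive of `A` with its motivic Galois group (if the monodromy group is reductive), which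
is equivalent to the motivic Mumford-Tate conjecture for `A`.

All varieties `X_i` (`i` in a finite set) and `Y_b` (`b` in a finite set) have odd dimension, numerical
and homological equivalence coincide for them (for example curves, hypersurfaces, complete
intersections), and their transcendental cohomology `T(X_i)`, `T(Y_b)` (the orthogonal complement of the
algebraic classes) is concentrated in the middle degree; the `Y_b` have the same dimension, the
`T(X_i)` are irreducible under all subgroups of finite index and no two of them are isomorphic up to
scalars. **Nothing else is assumed on the `Y_b`**, for example they may be arbitrary curves, and nothing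
at all is assumed on `Z`.

Let `N` be the set of the `g ∈ Γ` with `χ(g) = 1` which act trivially on the cohomology of `Z` and with
`(g - 1) ^ 2 = 0` on all `T(X_j)` and all `T(Y_b)` (inertia at places at which `Z` has good reduction and
the curves `X_j`, `Y_b` have stable reduction; **all** of them may have bad reduction). Assume for
every `i`:

* **(small defects)** some `g ∈ N` has defects on `T(X_i)` without a common prime factor, or the defect
  two; here the defects of `g` are the rank of `g - 1` on `T(X_i)` and the multiplicities of the nonzero
  eigenvalues of `(g - 1) (g' - 1)` on `T(X_i)`, for `g' ∈ N`. (Or: the conjugates of some `g ∈ N` act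
  irreducibly on `T(X_i)` and the defects of all elements of `N` have no common prime factor.)
* **(larger toric rank)** for some `g ∈ N` the rank of `g - 1` on `T(X_i)` is larger than the sum of the
  ranks of `g - 1` on the `T(Y_b)`.

Let `Z₁` be a product of `Z` with arbitrary powers of the `Y_b`, and `T` a product of `Z₁` with arbitrary
powers of the `X_i`. Then **all Tate classes of `T` belong to `C(T)` if and only if all Tate classes of
`Z₁` belong to `C(Z₁)`**. So the motivic Mumford-Tate conjecture for the motives generated by the
`X_i`, `Y_b` and `Z` is equivalent to the conjecture for those generated by the `Y_b` and `Z`.

The proof is the one of the result on the Tate conjecture (`MP_3703a7_ag.SemistableProducts`): a Tate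
class on the product of a power of `X_i` with `A` is a combination of products of algebraic classes of
the power and Tate classes of `A`.
-/

universe u

namespace Pool.Agent.Results.MP_de8692_ag.SemistableProducts

open Pool.Agent.H914 Pool.Agent.H281R3.HT Pool.Agent.TH125.Gal Pool.Agent.V11219.Min
  Pool.Agent.V11219.Cls

/-- **Motivated classes and Tate classes: comparison of ranks at common places.** -/
theorem result {k : Type u} [Field k] {𝒱 : VarClass k} {ops : CycleOps 𝒱}
    (W : WeilCohomology.{u, 0} ops) [IsAlgClosed W.K] {Γ : Type} [Group Γ] (χ : CharOf W Γ)
    (C : Classes W) (hC : ClassSystem W C)
    {ι β : Type} [Finite ι] [Fintype β] (X : ι → GVar W Γ) (Y : β → GVar W Γ) (d : ℕ)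
    (Z : GVar W Γ) (h : FamilyOver χ X Y d Z) (S' : Set β) (Z₁ : GVar W Γ)
    (hZ : Tower Y Z S' Z₁) (S : Set ι) (T : GVar W Γ) (hT : Tower X Z₁ S T) :
    TateIn χ C T ↔ TateIn χ C Z₁ := by
  classical
  have := Fintype.ofFinite ι
  exact cls_over hC h.over (hZ.gTower fun b => (h.good' b).1) (hT.gTower fun i => (h.good i).1)

end Pool.Agent.Results.MP_de8692_ag.SemistableProducts
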